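import Pool.Agent.H86.Forced3

/-!
# A narrow forcing that is not uniformly narrow

We construct a model `(M, E)` of `ZF` in which, for `θ = ω`, there is a forcing on an ordinal
(so a wellordered forcing) which is `θ`-narrow but not uniformly `θ`-narrow.

The model is the quotient by a generic sequence of the symmetric extension for the Levy
collapse of an inaccessible cardinal with supports bounded below that cardinal; the forcing is
the ground model's Levy collapse.

All notions below are interpreted in a structure `(M, E)`: `E x y` is read as `x ∈ y`.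
-/

namespace Pool.Agent.Results.MP_0f0156_lc.NotUniform

open Pool.Agent.H86

section Defs

variable {M : Type} (E : M → M → Prop)

/-- `z = {a, b}` -/
def IsUPair (z a b : M) : Prop := ∀ t, E t z ↔ (t = a ∨ t = b)

/-- `z` is the (Kuratowski) ordered pair `(a, b) = {{a}, {a, b}}` -/
def IsPair (z a b : M) : Prop := ∀ w, E w z ↔ (IsUPair E w a a ∨ IsUPair E w a b)

/-- `(x, y) ∈ f` -/
def Rel (f x y : M) : Prop := ∃ z, IsPair E z x y ∧ E z f

/-- `x` is a transitive set -/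
def IsTrans (x : M) : Prop := ∀ y, E y x → ∀ z, E z y → E z x

/-- `x` is an ordinal (a transitive set of transitive sets; the model satisfies foundation) -/
def IsOrd (x : M) : Prop := IsTrans E x ∧ ∀ y, E y x → IsTrans E y

/-- `f` is a function, i.e. a single-valued set of ordered pairs -/
def IsFun (f : M) : Prop :=
  (∀ z, E z f → ∃ x y, IsPair E z x y) ∧ ∀ x y y', Rel E f x y → Rel E f x y' → y = y'

/-- `f` is injective -/
def IsInj (f : M) : Prop := ∀ x x' y, Rel E f x y → Rel E f x' y → x = x'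

/-- `θ` is the first infinite ordinal `ω`: an ordinal that contains the empty set and is closed
under successors, all of whose elements are empty or successors -/
def IsOmega (θ : M) : Prop :=
  IsOrd E θ ∧ (∃ e, E e θ ∧ ∀ z, ¬ E z e) ∧
  (∀ y, E y θ → ∃ s, E s θ ∧ ∀ z, E z s ↔ (E z y ∨ z = y)) ∧
  ∀ y, E y θ → ((∀ z, ¬ E z y) ∨ ∃ x, E x y ∧ ∀ z, E z y ↔ (E z x ∨ z = x))

/-- `R` is (the graph of) a partial order on the set `P` with largest element `t`: the triple
`(P, R, t)` is a forcing -/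
def IsForcing (P R t : M) : Prop :=
  E t P ∧ (∀ p q, Rel E R p q → (E p P ∧ E q P)) ∧ (∀ p, E p P → Rel E R p p) ∧
  (∀ p q, Rel E R p q → Rel E R q p → p = q) ∧
  (∀ p q r, Rel E R p q → Rel E R q r → Rel E R p r) ∧ ∀ p, E p P → Rel E R p t

/-- `p ∥ q`: some `r ∈ P` lies below both -/
def Compat (P R p q : M) : Prop := ∃ r, E r P ∧ Rel E R r p ∧ Rel E R r q

/-- `f` is a partial `∥`-homomorphism from `P` to the (discretely ordered) ordinals -/
def IsPHom (P R f : M) : Prop :=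
  IsFun E f ∧ (∀ x y, Rel E f x y → (E x P ∧ IsOrd E y)) ∧
  ∀ x y x' y', Rel E f x y → Rel E f x' y' → Compat E P R x x' → y = y'

/-- `F` is a sequence `⟨f_i | i < μ⟩` of partial `∥`-homomorphisms from `P` to the ordinals -/
def IsSeq (P R F μ : M) : Prop :=
  IsFun E F ∧ (∀ i, E i μ ↔ ∃ f, Rel E F i f) ∧ ∀ i f, Rel E F i f → IsPHom E P R f

/-- `(P, R)` is `(θ, ν)`-narrow: for every ordinal `μ ≤ ν` and every sequence `⟨f_i | i < μ⟩` of
partial `∥`-homomorphisms from `P` to the ordinals there is an injection of `⋃_{i<μ} ran(f_i)`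
into `max(θ, μ) = θ ∪ μ` -/
def NuNarrow (P R θ ν : M) : Prop :=
  ∀ μ, IsOrd E μ → (E μ ν ∨ μ = ν) → ∀ F, IsSeq E P R F μ →
    ∃ h, IsFun E h ∧ IsInj E h ∧
      (∀ y, (∃ z, Rel E h y z) ↔ ∃ i f x, Rel E F i f ∧ Rel E f x y) ∧
      ∀ y z, Rel E h y z → (E z θ ∨ E z μ)

/-- `(P, R)` is `θ`-narrow: it is `(θ, ν)`-narrow for every ordinal `ν` -/
def Narrow (P R θ : M) : Prop := ∀ ν, IsOrd E ν → NuNarrow E P R θ ν

/-- `(P, R)` is uniformly `θ`-narrow: there is a function `G` that assigns to each partial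
`∥`-homomorphism `f` from `P` to the ordinals whose range is an ordinal an injective function
`G(f) : ran(f) → θ` -/
def UnifNarrow (P R θ : M) : Prop :=
  ∃ G, IsFun E G ∧ ∀ f, IsPHom E P R f → (∃ α, IsOrd E α ∧ ∀ y, E y α ↔ ∃ x, Rel E f x y) →
    ∃ g, Rel E G f g ∧ IsFun E g ∧ IsInj E g ∧
      (∀ y, (∃ z, Rel E g y z) ↔ ∃ x, Rel E f x y) ∧ ∀ y z, Rel E g y z → E z θ

end Defs

theorem pair_inj {M : Type} {E : M → M → Prop} (hE : IsZFModel E) {z a b c d : M}
    (h1 : IsPair E z a b) (h2 : IsPair E z c d) : a = c ∧ b = d := by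
  have hac : a = c := by
    obtain ⟨s, hs⟩ := hE.pair a a
    have h3 : E s z := (h1 s).2 (Or.inl hs)
    rcases (h2 s).1 h3 with h | h
    · have h4 := (hs c).1 ((h c).2 (Or.inl rfl))
      rcases h4 with h4 | h4 <;> exact h4.symm
    · have h4 := (hs c).1 ((h c).2 (Or.inl rfl))
      rcases h4 with h4 | h4 <;> exact h4.symm
  refine ⟨hac, ?_⟩
  subst hac
  obtain ⟨u, hu⟩ := hE.pair a b
  obtain ⟨v, hv⟩ := hE.pair a d
  have hu' : E u z := (h1 u).2 (Or.inr hu)
  have hv' : E v z := (h2 v).2 (Or.inr hv)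
  have hb : b = a ∨ b = d := by
    rcases (h2 u).1 hu' with h | h
    · have := (h b).1 ((hu b).2 (Or.inr rfl))
      tauto
    · exact (h b).1 ((hu b).2 (Or.inr rfl))
  have hd : d = a ∨ d = b := by
    rcases (h1 v).1 hv' with h | h
    · have := (h d).1 ((hv d).2 (Or.inr rfl))
      tauto
    · exact (h d).1 ((hv d).2 (Or.inr rfl))
  rcases hb with rfl | hb
  · rcases hd with hd | hd <;> exact hd.symm
  · exact hb

/-- the formula used to cut down the domain of a function -/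
def fCut {N : Type*} {Ω : Type*} (L : LogicStr N Ω) (z F : N) : Ω :=
  L.ex fun y => L.ex fun w => L.and (fPr L z y w) (L.ex fun i => L.ex fun x => fVal L F i x y)

theorem narrow_of_weak {M : Type} {E : M → M → Prop} (hE : IsZFModel E) {P R θ : M}
    (h : fNarrowW (propStr E) P R θ) : Narrow E P R θ := by
  intro ν _ μ hμ _ F hF
  obtain ⟨h, h1, h2, h3, h4⟩ := h μ hμ F hF
  have h1' : IsFun E h := h1
  have h2' : IsInj E h := h2
  have h3' : ∀ i x y, (∃ f, Rel E F i f ∧ Rel E f x y) → ∃ z, Rel E h y z := h3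
  have h4' : ∀ y z, Rel E h y z → (E z θ ∨ E z μ) := h4
  obtain ⟨k, hk⟩ := hE.sep (fCut codeStr 0 1 2) (fun _ => F) h
  have hk' : ∀ z, E z k ↔ (E z h ∧ ∃ y w, IsPair E z y w ∧
      ∃ i x f, Rel E F i f ∧ Rel E f x y) := by
    intro z
    rw [hk, sat_eq_eval]
    exact Iff.rfl
  have hrel : ∀ y w, Rel E k y w ↔ (Rel E h y w ∧ ∃ i x f, Rel E F i f ∧ Rel E f x y) := by
    intro y w
    constructor
    · rintro ⟨z, hz1, hz2⟩
      obtain ⟨hz3, y', w', hz4, hz5⟩ := (hk' z).1 hz2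
      obtain ⟨rfl, rfl⟩ := pair_inj hE hz1 hz4
      exact ⟨⟨z, hz1, hz3⟩, hz5⟩
    · rintro ⟨⟨z, hz1, hz2⟩, h⟩
      exact ⟨z, hz1, (hk' z).2 ⟨hz2, y, w, hz1, h⟩⟩
  refine ⟨k, ⟨fun z hz => ?_, ?_⟩, ?_, ?_, ?_⟩
  · exact h1'.1 z ((hk' z).1 hz).1
  · intro x y y' hy hy'
    exact h1'.2 x y y' ((hrel _ _).1 hy).1 ((hrel _ _).1 hy').1
  · intro x x' y hy hy'
    exact h2' x x' y ((hrel _ _).1 hy).1 ((hrel _ _).1 hy').1
  · intro y
    constructor
    · rintro ⟨z, hz⟩
      obtain ⟨_, i, x, f, hf⟩ := (hrel _ _).1 hz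
      exact ⟨i, f, x, hf⟩
    · rintro ⟨i, f, x, hf⟩
      obtain ⟨z, hz⟩ := h3' i x y ⟨f, hf⟩
      exact ⟨z, (hrel _ _).2 ⟨hz, i, x, f, hf⟩⟩
  · intro y z hz
    exact h4' y z ((hrel _ _).1 hz).1

/-- **There is a model of `ZF` in which some wellordered forcing is `ω`-narrow but not uniformly
`ω`-narrow.** -/
theorem result : ∃ (M : Type) (E : M → M → Prop), IsZFModel E ∧
    ∃ θ P R t : M, IsOmega E θ ∧ IsOrd E P ∧ IsForcing E P R t ∧
      Narrow E P R θ ∧ ¬ UnifNarrow E P R θ := by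
  let x₀ : ℕ → Cond.sys.HN := Cond.asg4 (Cond.sys.hO Ordinal.omega0) Cond.nP Cond.nR Cond.nT
  obtain ⟨M, E, Nm, hE, h1, h2, h3⟩ := Cond.sys.exists_zf_model (⊤ : Cond) x₀
  refine ⟨M, E, hE, ?_⟩
  choose m hm using h2
  refine ⟨m 0, m 1, m 2, m 3, ?_, ?_, ?_, ?_, ?_⟩
  · exact h3 (fOmega codeStr 0 1) m x₀ hm (Cond.sys.forced_omega ⊤)
  · exact h3 (fOrd codeStr 1 4) m x₀ hm (Cond.sys.fOrd_hO _ ⊤)
  · exact h3 (fOrder codeStr 1 2 3 4) m x₀ hm (Cond.forced_order ⊤)
  · exact narrow_of_weak hE (h3 (fNarrowW codeStr 1 2 0 3) m x₀ hm (Cond.forced_narrow ⊤))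
  · exact h3 ((fUnif codeStr 1 2 0 3).imp .bot) m x₀ hm (Cond.forced_not_unif ⊤)

end Pool.Agent.Results.MP_0f0156_lc.NotUniform
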